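import Mathlib
import Pool.Agent.W964.Wd.Alt.Sim
import Pool.Agent.W964.Wd.Sat
import Pool.Agent.W964.Wd.Gen.Asym

/-!
Alternating machines with few guesses and the satisfiability of CNF formulas.
-/

set_option linter.unusedSectionVars false

namespace Pool.Agent.W964.Wd

open Finset Filter H568R2 H592R3 SmallDepth Pool.Agent.W964.Pram

/-- The states of the processors that check a guessed assignment. -/
inductive CkQ (n M : ℕ) : Type
  | test (c : Fin M) (α : Fin n → Bool) : CkQ n M
  | done (β : Bool) : CkQ n M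

/-- A machine that checks a guessed assignment. -/
@[reducible] noncomputable def checker (n M : ℕ) (ea : Fin (2 ^ n) ≃ (Fin n → Bool)) :
    Guess Bool (Fin M × Fin n × Bool) M (Choices [(true, 2 ^ n)]) where
  base :=
    { Q := CkQ n M
      A := Unit
      V := Bool
      word := fun b => b
      blank := true
      start := fun _ => CkQ.done true
      query := fun q => match q with
        | CkQ.test c α => (List.finRange n).map (fun v => Sum.inl (c, v, α v))
        | CkQ.done _ => []
      test := fun _ v => v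
      next := fun q o => match q with
        | CkQ.test _ _ => CkQ.done o.isSome
        | CkQ.done β => CkQ.done β
      write := fun q => match q with
        | CkQ.done false => some (Sum.inr (), false)
        | _ => none
      out := Sum.inr ()
      accept := fun v => v }
  init := fun γ p => CkQ.test p (ea γ.2)

lemma checker_answer (n M : ℕ) (ea : Fin (2 ^ n) ≃ (Fin n → Bool)) (i : Fin (2 ^ n))
    (x : Fin M × Fin n × Bool → Bool) :
    ((checker n M ea).fix ((), i)).answer 1 x = true ↔ Models x (ea i) := by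
  classical
  have h1 : ∀ p : Fin M, (((checker n M ea).fix ((), i)).run x (0 + 1)).1 p =
      CkQ.done (decide (∃ v, x (p, v, ea i v) = true)) := by
    intro p
    rw [Machine.run_states, Machine.run_zero]
    show CkQ.done (Option.isSome _) = _
    congr 1
    rw [Bool.eq_iff_iff, decide_eq_true_iff]
    unfold Machine.find
    rw [List.findSome?_isSome_iff]
    show (∃ c ∈ (List.finRange n).map (fun v => Sum.inl (p, v, ea i v)), _) ↔ _
    constructor
    · rintro ⟨c, hc, hc2⟩
      obtain ⟨v, _, rfl⟩ := List.mem_map.1 hc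
      refine ⟨v, ?_⟩
      split_ifs at hc2 with h
      · exact h
      · exact absurd hc2 (by simp)
    · rintro ⟨v, hv⟩
      refine ⟨Sum.inl (p, v, ea i v), List.mem_map.2 ⟨v, List.mem_finRange v, rfl⟩, ?_⟩
      split_ifs with h
      · rfl
      · exact absurd hv h
  show (((checker n M ea).fix ((), i)).run x (0 + 1)).2 (Sum.inr ()) = true ↔ _
  constructor
  · intro h c
    by_contra hcon
    have h2 : (((checker n M ea).fix ((), i)).run x (0 + 1)).2 (Sum.inr ()) = false := by
      apply Machine.mem_some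
      · refine ⟨c, ?_⟩
        rw [h1]
        have h3 : decide (∃ v, x (c, v, ea i v) = true) = false := decide_eq_false hcon
        rw [h3, Machine.wr_of (c' := Sum.inr ()) (v := false) rfl, if_pos rfl]
      · intro p v' hv'
        rw [h1] at hv'
        cases hd : decide (∃ v, x (p, v, ea i v) = true) with
        | true =>
          rw [hd, Machine.wr_none_of rfl] at hv'
          exact absurd hv' (by simp)
        | false =>
          rw [hd, Machine.wr_of (c' := Sum.inr ()) (v := false) rfl, if_pos rfl,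
            Option.some.injEq] at hv'
          exact hv'.symm
    rw [h2] at h
    exact absurd h (by simp)
  · intro h
    rw [Machine.mem_none]
    · rfl
    · intro p
      rw [h1]
      have h3 : decide (∃ v, x (p, v, ea i v) = true) = true := decide_eq_true (h p)
      rw [h3]
      exact Machine.wr_none_of rfl

/-- Satisfiability can be decided in one step with `n` guessed bits. -/
theorem alt_upper (n M : ℕ) :
    ∃ G : Guess Bool (Fin M × Fin n × Bool) M (Choices [(true, 2 ^ n)]), G.base.Lists n ∧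
      ∀ x, (G.altAnswer 1 x = true ↔ ∃ α, Models x α) := by
  classical
  obtain ⟨ea⟩ : Nonempty (Fin (2 ^ n) ≃ (Fin n → Bool)) :=
    ⟨(Fintype.equivFinOfCardEq (by simp)).symm⟩
  refine ⟨checker n M ea, ?_, ?_⟩
  · intro q
    cases q with
    | test c α =>
      show ((List.finRange n).map _).length ≤ n
      rw [List.length_map, List.length_finRange]
    | done β => exact Nat.zero_le _
  · intro x
    unfold Guess.altAnswer
    show (if true = true then decide (∃ i, ((checker n M ea).fix ((), i)).answer 1 x = true)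
      else decide (∀ i, ((checker n M ea).fix ((), i)).answer 1 x = true)) = true ↔ _
    rw [if_pos rfl, decide_eq_true_iff]
    constructor
    · rintro ⟨i, hi⟩
      exact ⟨ea i, (checker_answer n M ea i x).1 hi⟩
    · rintro ⟨α, hα⟩
      refine ⟨ea.symm α, (checker_answer n M ea _ x).2 ?_⟩
      rwa [Equiv.apply_symm_apply]

/-- Randomized alternating machines with few guesses fail on some formula. -/
theorem alt_rand (ε : ℝ) (hε : 0 < ε) (K : ℕ) : ∃ C : ℝ, 0 < C ∧
    ∀ (n T w M : ℕ) (L : List (Bool × ℕ)), 2 ≤ n → 1 ≤ T → (∀ qb ∈ L, 1 ≤ qb.2) →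
    C * (((T + L.length : ℕ) : ℝ) * Real.log n) ≤ w → w ≤ n → n * 2 ^ w ≤ M →
    ∀ (P : ℕ) (R : RAMachine Bool (Fin M × Fin n × Bool) P L),
      ((total L * (P + L.length * (2 * n * M + 1)) : ℕ) : ℝ) ≤ 2 ^ ((1 - ε) * n) →
      R.Lists (2 ^ (K * n)) →
      ∃ x, WidthLe x w ∧
        R.success T x (∃ α, Models x α) ≤ 1 / 2 + (2 : ℝ) ^ (-((w : ℝ) / C)) := by
  obtain ⟨C, hC, H⟩ := sat_rand_wd ε hε (K + 1)
  refine ⟨2 * C, by positivity, ?_⟩
  intro n T w M L hn hT hL hw hwn hM P R hP hR
  have hnR : (2 : ℝ) ≤ n := by exact_mod_cast hn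
  have hlog : 0 ≤ Real.log n := Real.log_nonneg (by linarith)
  have hcard : Fintype.card (Fin M × Fin n × Bool) = 2 * n * M := by
    simp only [Fintype.card_prod, Fintype.card_fin, Fintype.card_bool]
    ring
  have hPle : altP (Fintype.card (Fin M × Fin n × Bool)) L P ≤
      total L * (P + L.length * (2 * n * M + 1)) := by
    rw [hcard]
    exact altP_le _ L hL P
  have htot : total L ≤ 2 ^ n := by
    cases L with
    | nil =>
      show total [] ≤ 2 ^ n
      have : total [] = 1 := rfl
      rw [this]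
      exact Nat.one_le_two_pow
    | cons qb L =>
      have h1 : (total (qb :: L) : ℝ) ≤ 2 ^ ((1 - ε) * n) := by
        refine le_trans ?_ hP
        have h2 : 1 ≤ P + (qb :: L).length * (2 * n * M + 1) := by
          rw [List.length_cons]
          have : 1 ≤ (L.length + 1) * (2 * n * M + 1) := Nat.mul_pos (by omega) (by omega)
          omega
        exact_mod_cast Nat.le_mul_of_pos_right _ h2
      have h2 : (2 : ℝ) ^ ((1 - ε) * n) ≤ 2 ^ (n : ℝ) := by
        apply Real.rpow_le_rpow_of_exponent_le (by norm_num)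
        nlinarith
      have h3 : (total (qb :: L) : ℝ) ≤ ((2 ^ n : ℕ) : ℝ) := by
        refine (h1.trans h2).trans (le_of_eq ?_)
        rw [Real.rpow_natCast]
        push_cast
        rfl
      exact_mod_cast h3
  choose N hN1 hN2 using fun ω => alt_elim L hL (R.mach ω) (hR ω) T
  obtain ⟨x, hx1, hx2⟩ := H n (T + 2 * L.length) w M hn (by omega) (by
      refine le_trans ?_ hw
      have h1 : ((T + 2 * L.length : ℕ) : ℝ) ≤ 2 * ((T + L.length : ℕ) : ℝ) := by
        push_cast
        have : (0 : ℝ) ≤ T := Nat.cast_nonneg _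
        linarith
      calc C * (((T + 2 * L.length : ℕ) : ℝ) * Real.log n)
          ≤ C * ((2 * ((T + L.length : ℕ) : ℝ)) * Real.log n) := by
            apply mul_le_mul_of_nonneg_left _ hC.le
            exact mul_le_mul_of_nonneg_right h1 hlog
        _ = 2 * C * (((T + L.length : ℕ) : ℝ) * Real.log n) := by ring) hwn hM
    (altP (Fintype.card (Fin M × Fin n × Bool)) L P)
    { Ω := R.Ω, fin := R.fin, prob := R.prob, nonneg := R.nonneg, total := R.total, mach := N }
    (by
      refine le_trans ?_ hP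
      exact_mod_cast hPle) (by
      intro ω q
      refine (hN1 ω q).trans (max_le ?_ ?_)
      · exact Nat.pow_le_pow_right (by norm_num) (Nat.mul_le_mul_right _ (by omega))
      · refine htot.trans (Nat.pow_le_pow_right (by norm_num) ?_)
        exact Nat.le_mul_of_pos_left _ (by omega))
  refine ⟨x, hx1, ?_⟩
  have h1 : R.success T x (∃ α, Models x α) = RandMachine.success { Ω := R.Ω, fin := R.fin, prob := R.prob, nonneg := R.nonneg, total := R.total, mach := N } (T + 2 * L.length) x (∃ α, Models x α) := by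
    unfold RAMachine.success RandMachine.success
    refine Finset.sum_congr rfl fun ω _ => ?_
    dsimp only
    rw [hN2]
  rw [h1]
  refine hx2.trans ?_
  have h2 : (2 : ℝ) ^ (-((w : ℝ) / C)) ≤ 2 ^ (-((w : ℝ) / (2 * C))) := by
    apply Real.rpow_le_rpow_of_exponent_le (by norm_num)
    rw [neg_le_neg_iff]
    exact div_le_div_of_nonneg_left (Nat.cast_nonneg w) hC (by linarith)
  linarith

/-- The asymptotic form. -/
theorem alt_asym (δ : ℝ) (hδ : 0 < δ) (hδ2 : δ < 2) (K : ℕ) (T : ℕ → ℕ) (hT : ∀ n, 1 ≤ T n)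
    (hTo : (fun n : ℕ => (T n : ℝ) * Real.log n) =o[atTop] (fun n : ℕ => (n : ℝ))) :
    ∃ w M : ℕ → ℕ, (∃ C : ℝ, ∀ n, 2 ≤ n → (w n : ℝ) ≤ C * (T n * Real.log n) ∧
        (M n : ℝ) ≤ (n : ℝ) ^ (C * T n)) ∧
      ∀ c e : ℕ, ∀ᶠ n : ℕ in atTop,
        ∀ (L : List (Bool × ℕ)), L.length ≤ T n → (∀ qb ∈ L, 1 ≤ qb.2) →
        ∀ (P : ℕ) (R : RAMachine Bool (Fin (M n) × Fin n × Bool) P L), 1 ≤ P →
          ((total L * P : ℕ) : ℝ) ≤ (2 - δ) ^ n * (c * (M n : ℝ) ^ e) → R.Lists (2 ^ (K * n)) →
          ∃ x, WidthLe x (w n) ∧ R.success (T n) x (∃ α, Models x α) < 2 / 3 := by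
  obtain ⟨ε, hε, H⟩ := asym δ hδ hδ2
  obtain ⟨C, hC, HC⟩ := alt_rand ε hε K
  obtain ⟨w, hw, hA⟩ := H (2 * C + 1) (by linarith) T hT hTo
  refine ⟨w, fun n => n * 2 ^ w n, hw, fun c e => ?_⟩
  filter_upwards [hA (4 * c) (e + 3), eventually_ge_atTop 3] with n hn hn3
  obtain ⟨h1, h2, h3, h4, _, h6⟩ := hn
  intro L hLT hL P R hP1 hP hR
  have hn3R : (3 : ℝ) ≤ n := by exact_mod_cast hn3
  have hlog1 : 1 ≤ Real.log n := by
    rw [Real.le_log_iff_exp_le (by linarith)]
    have := Real.exp_one_lt_d9
    linarith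
  have hTn : T n ≤ n := by
    have h7 : (T n : ℝ) ≤ n := by
      have h8 : (w n : ℝ) ≤ n := by exact_mod_cast h3
      have h9 : (0 : ℝ) ≤ T n := Nat.cast_nonneg _
      have h10 : (T n : ℝ) * 1 ≤ T n * Real.log n := mul_le_mul_of_nonneg_left hlog1 h9
      have h11 : 0 ≤ C * (T n * Real.log n) := by positivity
      linarith
    exact_mod_cast h7
  obtain ⟨M, hMdef⟩ : ∃ M : ℕ, M = n * 2 ^ w n := ⟨_, rfl⟩
  have hnM : n ≤ M := by
    rw [hMdef]
    exact Nat.le_mul_of_pos_right _ (Nat.pow_pos (by norm_num))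
  have hproc : total L * (P + L.length * (2 * n * M + 1)) ≤ total L * P * (4 * M ^ 3) := by
    rw [mul_assoc (total L) P (4 * M ^ 3)]
    apply Nat.mul_le_mul_left
    have h7 : L.length * (2 * n * M + 1) ≤ M * (2 * M * M + 1) := by
      apply Nat.mul_le_mul (hLT.trans (hTn.trans hnM))
      nlinarith
    have hM1 : 1 ≤ M := by omega
    have h8 : M * (2 * M * M + 1) ≤ 3 * M ^ 3 := by
      have : M ≤ M ^ 3 := Nat.le_self_pow (by norm_num) M
      nlinarith
    have h9 : 1 ≤ M ^ 3 := Nat.one_le_pow _ _ hM1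
    have h10 : P ≤ P * M ^ 3 := Nat.le_mul_of_pos_right _ h9
    have h11 : M ^ 3 ≤ P * M ^ 3 := Nat.le_mul_of_pos_left _ hP1
    nlinarith
  obtain ⟨x, hx1, hx2⟩ := HC n (T n) (w n) (n * 2 ^ w n) L h1 (hT n) hL (by
      refine le_trans ?_ h2
      have h7 : ((T n + L.length : ℕ) : ℝ) ≤ 2 * T n := by
        have : ((T n + L.length : ℕ) : ℝ) ≤ ((2 * T n : ℕ) : ℝ) := by
          exact_mod_cast (by omega)
        push_cast at this ⊢
        linarith
      have h8 : 0 ≤ T n * Real.log n := by positivity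
      calc C * (((T n + L.length : ℕ) : ℝ) * Real.log n)
          ≤ C * (2 * T n * Real.log n) := by
            apply mul_le_mul_of_nonneg_left _ hC.le
            exact mul_le_mul_of_nonneg_right h7 (by linarith)
        _ ≤ (2 * C + 1) * (T n * Real.log n) := by nlinarith) h3 le_rfl P R (by
      refine le_trans ?_ h4
      rw [← hMdef]
      rw [← hMdef] at hP
      have h7 : ((total L * (P + L.length * (2 * n * M + 1)) : ℕ) : ℝ) ≤
          ((total L * P : ℕ) : ℝ) * (4 * (M : ℝ) ^ 3) := by
        exact_mod_cast hproc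
      refine h7.trans ?_
      calc ((total L * P : ℕ) : ℝ) * (4 * (M : ℝ) ^ 3)
          ≤ ((2 - δ) ^ n * (c * (M : ℝ) ^ e)) * (4 * (M : ℝ) ^ 3) :=
            mul_le_mul_of_nonneg_right hP (by positivity)
        _ = (2 - δ) ^ n * (((4 * c : ℕ) : ℝ) * (M : ℝ) ^ (e + 3)) := by
            push_cast
            rw [pow_add]
            ring) hR
  refine ⟨x, hx1, lt_of_le_of_lt hx2 ?_⟩
  have h7 : (2 : ℝ) ^ (-((w n : ℝ) / C)) ≤ 2 ^ (-((w n : ℝ) / (2 * C + 1))) := by
    apply Real.rpow_le_rpow_of_exponent_le (by norm_num)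
    rw [neg_le_neg_iff]
    exact div_le_div_of_nonneg_left (Nat.cast_nonneg _) hC (by linarith)
  linarith

end Pool.Agent.W964.Wd
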